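import Pool.Agent.Helper67.KPG.St2

/-!
# Project KP (MP_26be5b_ag), module BAE: facts on `ad e`
-/

set_option autoImplicit false
set_option linter.unusedSectionVars false

namespace Pool.Agent.Helper89.KPG

open Pool.Agent.Helper67.NO Pool.Agent.Helper52.KP Pool.Agent.Helper67.KPG

universe u

section

variable {g : Type u} [LieRing g] [LieAlgebra ℂ g] [FiniteDimensional ℂ g]
  {e h f : g} {N : ℕ} {pr : ℤ → g →ₗ[ℂ] g}

private theorem he (hS : Sl e h f N pr) : ⁅h, e⁆ = (2 : ℂ) • e := by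
  rw [hS.tri.lie_h_e_nsmul, two_nsmul, two_smul]

private theorem idem (hS : Sl e h f N pr) (j : ℤ) (x : g) : pr j (pr j x) = pr j x :=
  hS.fix j _ (hS.eig j x)

private theorem raise (hS : Sl e h f N pr) (j : ℤ) (x : g) (hx : pr j x = x) :
    pr (j + 2) ⁅e, x⁆ = ⁅e, x⁆ := by
  refine hS.fix (j + 2) _ ?_
  have h1 : ⁅h, x⁆ = (j : ℂ) • x := by
    have := hS.eig j x
    rwa [hx] at this
  rw [leibniz_lie, he hS, h1, smul_lie, lie_smul, ← add_smul]
  congr 1
  push_cast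
  ring

private theorem comm (hS : Sl e h f N pr) (j : ℤ) (x : g) :
    pr (j + 2) ⁅e, x⁆ = ⁅e, pr j x⁆ := by
  have h1 : ∀ i : ℤ, pr (j + 2) ⁅e, pr i x⁆ = if i = j then ⁅e, pr j x⁆ else 0 := by
    intro i
    split_ifs with hij
    · rw [hij]
      exact raise hS j _ (idem hS j x)
    · rw [← raise hS i _ (idem hS i x)]
      exact hS.orth _ _ (by omega) _
  have h2 : ⁅e, x⁆ = ∑ i ∈ Finset.Icc (-(N : ℤ)) N, ⁅e, pr i x⁆ := by
    conv_lhs => rw [← hS.sum x]
    rw [lie_sum]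
  rw [h2, map_sum, Finset.sum_congr rfl fun i _ => h1 i, Finset.sum_ite_eq']
  split_ifs with hj
  · rfl
  · rw [Finset.mem_Icc] at hj
    have : (N : ℤ) < |j| := by
      rcases abs_cases j with ⟨h3, h4⟩ | ⟨h3, h4⟩ <;> rw [h3] <;> omega
    rw [hS.top j this, LinearMap.zero_apply, lie_zero]

private theorem powr (hS : Sl e h f N pr) (j : ℤ) (x : g) (hx : pr j x = x) (k : ℕ) :
    pr (j + 2 * k) (((LieAlgebra.ad ℂ g e : Module.End ℂ g) ^ k) x) =
      ((LieAlgebra.ad ℂ g e : Module.End ℂ g) ^ k) x := by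
  induction k with
  | zero => simpa using hx
  | succ k ih =>
    rw [pow_succ', Module.End.mul_apply, LieAlgebra.ad_apply]
    have := raise hS _ _ ih
    have h2 : j + 2 * ((k + 1 : ℕ) : ℤ) = j + 2 * (k : ℤ) + 2 := by push_cast; ring
    rw [h2]
    exact this

private theorem surj1 (hS : Sl e h f N pr) (hF : SlF e h f N pr) (v : g) (hv : v ∈ ge pr 2)
    (j : ℤ) : ∃ x ∈ ge pr 0, ⁅e, x⁆ = pr j v := by
  by_cases hj : j < 2
  · refine ⟨0, Submodule.zero_mem _, ?_⟩
    rw [lie_zero, mem_ge.1 hv j hj]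
  · push Not at hj
    obtain ⟨k, hk⟩ : ∃ k : ℕ, j = (k : ℤ) + 1 := ⟨(j - 1).toNat, by omega⟩
    obtain ⟨x, hx1, hx2⟩ := hS.sur (k + 1) (pr j v) (by
      have : ((k + 1 : ℕ) : ℤ) = j := by rw [hk]; push_cast; ring
      rw [this]
      exact idem hS j v)
    refine ⟨((LieAlgebra.ad ℂ g e : Module.End ℂ g) ^ k) x, ?_, ?_⟩
    · have h3 := powr hS _ x hx1 k
      rw [← h3]
      refine hF.prge _ _ _ ?_
      push_cast
      omega
    · rw [pow_succ', Module.End.mul_apply, LieAlgebra.ad_apply] at hx2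
      exact hx2

private theorem surj (hS : Sl e h f N pr) (hF : SlF e h f N pr) (v : g) (hv : v ∈ ge pr 2) :
    ∃ x ∈ ge pr 0, ⁅x, e⁆ = v := by
  choose x hx1 hx2 using surj1 hS hF v hv
  refine ⟨-∑ j ∈ Finset.Icc (-(N : ℤ)) N, x j,
    Submodule.neg_mem _ (Submodule.sum_mem _ fun j _ => hx1 j), ?_⟩
  rw [← lie_skew, lie_neg, neg_neg, lie_sum, Finset.sum_congr rfl fun j _ => hx2 j]
  exact hS.sum v

private theorem inj' (hS : Sl e h f N pr) (i : ℤ) (hi : i < 0) (x : g) (hx : ⁅e, pr i x⁆ = 0) :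
    pr i x = 0 := by
  obtain ⟨k, hk⟩ : ∃ k : ℕ, i = -((k + 1 : ℕ) : ℤ) := ⟨(-i - 1).toNat, by push_cast; omega⟩
  refine hS.inj (k + 1) _ ?_ ?_
  · rw [← hk]
    exact idem hS i x
  · rw [pow_succ, Module.End.mul_apply, LieAlgebra.ad_apply, hx, map_zero]

private theorem ker0 (hS : Sl e h f N pr) (x : g) (hx : ⁅e, x⁆ = 0) : x ∈ ge pr 0 := by
  rw [mem_ge]
  intro i hi
  refine inj' hS i hi x ?_
  rw [← comm hS, hx, map_zero]

private theorem ker1 (hS : Sl e h f N pr) (x y : g) (hx : ⁅e, x⁆ = 0) (hy : ⁅e, y⁆ = x) :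
    x ∈ ge pr 1 := by
  rw [mem_ge]
  intro i hi
  rcases lt_or_eq_of_le (show i ≤ 0 by omega) with h0 | h0
  · exact mem_ge.1 (ker0 hS x hx) i h0
  · subst h0
    have h1 : pr 0 x = ⁅e, pr (-2) y⁆ := by
      have := comm hS (-2) y
      rw [hy] at this
      simpa using this
    have h2 : ⁅e, ⁅e, pr (-2) y⁆⁆ = 0 := by
      rw [← h1, ← comm hS, hx, map_zero]
    have h3 : pr (-2) y = 0 := by
      refine hS.inj 2 _ ?_ ?_
      · exact idem hS (-2) y
      · rw [pow_two, Module.End.mul_apply, LieAlgebra.ad_apply, LieAlgebra.ad_apply]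
        exact h2
    rw [h1, h3, lie_zero]

private theorem dim (hS : Sl e h f N pr) (hF : SlF e h f N pr) :
    Module.finrank ℂ (le pr (-1)) + Module.finrank ℂ (ge pr 2) = rk e := by
  set A : g →ₗ[ℂ] g := (LieAlgebra.ad ℂ g e : g →ₗ[ℂ] g) with hA
  have hAx : ∀ x, A x = ⁅e, x⁆ := fun x => rfl
  have hc := hF.cpl 0
  have h01 : (0 : ℤ) - 1 = -1 := by norm_num
  rw [h01] at hc
  have hr : LinearMap.range A = Submodule.map A (le pr (-1)) ⊔ ge pr 2 := by
    apply le_antisymm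
    · rintro _ ⟨x, rfl⟩
      have hx : x ∈ ge pr 0 ⊔ le pr (-1) := by
        rw [hc.sup_eq_top]; trivial
      obtain ⟨x'', h1, x', h2, rfl⟩ := Submodule.mem_sup.1 hx
      rw [map_add, add_comm]
      refine Submodule.add_mem_sup ⟨x', h2, rfl⟩ ?_
      have := hF.brge 2 0 e x'' hF.e2.1 h1
      simpa [hAx] using this
    · refine sup_le ?_ ?_
      · rintro _ ⟨x, _, rfl⟩
        exact ⟨x, rfl⟩
      · intro v hv
        obtain ⟨x, _, hx2⟩ := surj hS hF v hv
        refine ⟨-x, ?_⟩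
        rw [hAx, lie_neg, lie_skew, hx2]
  have hz : ∀ x' ∈ le pr (-1), A x' ∈ ge pr 2 → x' = 0 := by
    intro x' h1 h2
    obtain ⟨x, h3, h4⟩ := surj hS hF _ h2
    have h5 : ⁅e, x' + x⁆ = 0 := by
      rw [lie_add, ← hAx x', ← h4, ← lie_skew x e, neg_add_cancel]
    have h6 := ker0 hS _ h5
    have h7 : x' ∈ ge pr 0 := by
      have := Submodule.sub_mem _ h6 h3
      simpa using this
    exact (Submodule.disjoint_def.1 hc.disjoint) x' h7 h1
  have hinf : Submodule.map A (le pr (-1)) ⊓ ge pr 2 = ⊥ := by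
    rw [eq_bot_iff]
    rintro _ ⟨⟨x', h1, rfl⟩, h2⟩
    rw [hz x' h1 h2, map_zero]
    exact Submodule.zero_mem _
  have hfin : Module.finrank ℂ (Submodule.map A (le pr (-1))) =
      Module.finrank ℂ (le pr (-1)) := by
    have h1 : LinearMap.range (A ∘ₗ (le pr (-1)).subtype) = Submodule.map A (le pr (-1)) := by
      rw [LinearMap.range_comp, Submodule.range_subtype]
    rw [← h1]
    refine LinearMap.finrank_range_of_inj ?_
    rw [injective_iff_map_eq_zero]
    intro x hx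
    have h2 : (x : g) = 0 := by
      refine hz x x.2 ?_
      have : A (x : g) = 0 := hx
      rw [this]
      exact Submodule.zero_mem _
    exact_mod_cast h2
  have hsum := Submodule.finrank_sup_add_finrank_inf_eq (Submodule.map A (le pr (-1))) (ge pr 2)
  rw [hinf, finrank_bot, add_zero, hfin, ← hr] at hsum
  unfold rk
  exact hsum.symm

end

/-- MODULE BAE (facts on `ad e`). -/
theorem hBAE : StBAS.{u} → StBAE.{u} := by
  intro hB g _ _ _ e h f N pr hS
  have hF := hB g e h f N pr hS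
  exact ⟨surj hS hF, ker0 hS, ker1 hS, dim hS hF⟩

end Pool.Agent.Helper89.KPG
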